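import Pool.Agent.H53.Per.Tmp

set_option autoImplicit false

/-! MP_2e6055, module F5: RUN7 (closed statement of `H53/Per/Tmp.lean`). -/

namespace Pool.Agent.H7.F5

open Pool.Agent.H7.UC Pool.Agent.H74.Tri Pool.Agent.H75.Lv Pool.Agent.H53.Per Pool.Agent.H55.Lane

/-- the strips of the corridor in inequalities (`i`-th strip) -/
def S7 (t b k e x1 y : ℤ) (X Y : ℤ) : Fin 7 → Prop
  | 0 => b + 9 * t ≤ X ∧ X ≤ x1 ∧ y - t ≤ Y ∧ Y ≤ y + t
  | 1 => b + 9 * t ≤ X ∧ X ≤ b + 11 * t ∧ -b - t ≤ Y ∧ Y ≤ y + t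
  | 2 => -b - t ≤ X ∧ X ≤ b + 11 * t ∧ -b - t ≤ Y ∧ Y ≤ -b + t
  | 3 => -b - t ≤ X ∧ X ≤ -b + t ∧ -b - t ≤ Y ∧ Y ≤ b + t
  | 4 => -b - t ≤ X ∧ X ≤ b - 9 * t ∧ b - t ≤ Y ∧ Y ≤ b + t
  | 5 => b - 11 * t ≤ X ∧ X ≤ b - 9 * t ∧ -2 * k - t ≤ Y ∧ Y ≤ b + t
  | 6 => e + 1 ≤ X ∧ X ≤ b - 9 * t ∧ -2 * k - t ≤ Y ∧ Y ≤ -2 * k + t

theorem out7_iff {C : Ch} {p : Pos} {v z0 : Fc} {R t b k e y : ℤ} {f : Fc} :
    f ∈ Out7 C p v z0 R t b k e y ↔ f ∈ Bx v R ∧ f ∉ Bx (ph p) (40 * t) ∧ f ∉ Bx z0 e ∧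
      ∀ i, ¬ S7 t b k e (C.X (ph p)) y (C.X f) (C.Y f) i := by
  unfold Out7
  rw [Set.mem_ofPred_eq]
  refine and_congr_right fun _ => and_congr_right fun _ => and_congr_right fun _ => ?_
  constructor
  · intro h i hi
    have e0 : ∀ s : Sp, s ∈ K7 t b k e (C.X (ph p)) y → ¬ ((s.x0 ≤ C.X f ∧ C.X f ≤ s.x1) ∧
        (s.y0 ≤ C.Y f ∧ C.Y f ≤ s.y1)) := fun s hs hn => h s hs hn
    unfold K7 at e0
    fin_cases i
    · exact e0 ⟨true, b + 9 * t, C.X (ph p), y - t, y + t⟩ (by simp)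
        ⟨⟨hi.1, hi.2.1⟩, hi.2.2.1, hi.2.2.2⟩
    · exact e0 ⟨false, b + 9 * t, b + 11 * t, -b - t, y + t⟩ (by simp)
        ⟨⟨hi.1, hi.2.1⟩, hi.2.2.1, hi.2.2.2⟩
    · exact e0 ⟨true, -b - t, b + 11 * t, -b - t, -b + t⟩ (by simp)
        ⟨⟨hi.1, hi.2.1⟩, hi.2.2.1, hi.2.2.2⟩
    · exact e0 ⟨false, -b - t, -b + t, -b - t, b + t⟩ (by simp)
        ⟨⟨hi.1, hi.2.1⟩, hi.2.2.1, hi.2.2.2⟩
    · exact e0 ⟨true, -b - t, b - 9 * t, b - t, b + t⟩ (by simp)
        ⟨⟨hi.1, hi.2.1⟩, hi.2.2.1, hi.2.2.2⟩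
    · exact e0 ⟨false, b - 11 * t, b - 9 * t, -2 * k - t, b + t⟩ (by simp)
        ⟨⟨hi.1, hi.2.1⟩, hi.2.2.1, hi.2.2.2⟩
    · exact e0 ⟨true, e + 1, b - 9 * t, -2 * k - t, -2 * k + t⟩ (by simp)
        ⟨⟨hi.1, hi.2.1⟩, hi.2.2.1, hi.2.2.2⟩
  · intro h s hs hn
    unfold K7 at hs
    simp only [List.mem_cons, List.not_mem_nil, or_false] at hs
    rcases hs with rfl | rfl | rfl | rfl | rfl | rfl | rfl
    · exact h 0 ⟨hn.1.1, hn.1.2, hn.2.1, hn.2.2⟩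
    · exact h 1 ⟨hn.1.1, hn.1.2, hn.2.1, hn.2.2⟩
    · exact h 2 ⟨hn.1.1, hn.1.2, hn.2.1, hn.2.2⟩
    · exact h 3 ⟨hn.1.1, hn.1.2, hn.2.1, hn.2.2⟩
    · exact h 4 ⟨hn.1.1, hn.1.2, hn.2.1, hn.2.2⟩
    · exact h 5 ⟨hn.1.1, hn.1.2, hn.2.1, hn.2.2⟩
    · exact h 6 ⟨hn.1.1, hn.1.2, hn.2.1, hn.2.2⟩

/-- a connected set, a region closed under its steps -/
theorem sub_of_closed {Rv A : Set Fc} {x : Fc} (hc : ∀ f ∈ Rv, ∀ g ∈ Rv, Jn Rv f g) (hx : x ∈ Rv)
    (hxA : x ∈ A) (h : ∀ f ∈ Rv, f ∈ A → ∀ g ∈ Rv, adjF f g → g ∈ A) : ∀ f ∈ Rv, f ∈ A := by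
  intro f hf
  have key : ∀ g, Jn Rv x g → g ∈ Rv ∧ g ∈ A := by
    intro g hg
    induction hg with
    | refl => exact ⟨hx, hxA⟩
    | tail _ h2 ih => exact ⟨h2.1, h _ ih.1 ih.2 _ h2.1 h2.2⟩
  exact (key f (hc x hx f hf)).2

theorem find_up (P : ℤ → Prop) {a c : ℤ} (hac : a ≤ c) (hc : P c) (ha : ¬ P a) :
    ∃ i, a < i ∧ i ≤ c ∧ P i ∧ ∀ j, a ≤ j → j < i → ¬ P j := by
  classical
  have hex : ∃ n : ℕ, P (a + n) := ⟨(c - a).toNat, by
    rw [show a + (((c - a).toNat : ℕ) : ℤ) = c by omega]; exact hc⟩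
  refine ⟨a + (Nat.find hex : ℕ), ?_, ?_, Nat.find_spec hex, ?_⟩
  · have : Nat.find hex ≠ 0 := by
      intro h0
      have := Nat.find_spec hex
      rw [h0] at this
      simp only [Nat.cast_zero, add_zero] at this
      exact ha this
    omega
  · have h1 : Nat.find hex ≤ (c - a).toNat := Nat.find_min' hex (by
      rw [show a + (((c - a).toNat : ℕ) : ℤ) = c by omega]; exact hc)
    omega
  · intro j h1 h2 hj
    have h3 : (j - a).toNat < Nat.find hex := by omega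
    apply Nat.find_min hex h3
    rw [show a + (((j - a).toNat : ℕ) : ℤ) = j by omega]
    exact hj

theorem run7 : RUN7 := by
  intro C U ω p v z0 R t b k e y hS Rv hRU hRc hph hnear hE hO
  obtain ⟨f0, hf0, g0, hg0, hfg0⟩ := hnear
  have hcX : C.X z0 = 0 := by rw [← hS.c]; exact C.X_c
  have hcY : C.Y z0 = 0 := by rw [← hS.c]; exact C.Y_c
  obtain ⟨n1, n2, n3, n4, n5, n6, n7, n8, n9, n10, n11, n12, n13⟩ := hS.num
  rw [abs_le] at n6 n7 n9 n12
  have n13' : y - C.Y v + t < R ∧ -(y - C.Y v) + t < R := by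
    constructor
    · have := le_abs_self (y - C.Y v); omega
    · have := neg_abs_le (y - C.Y v); omega
  obtain ⟨X, hX⟩ : ∃ X, C.X (ph p) = X := ⟨_, rfl⟩
  obtain ⟨Y, hY⟩ : ∃ Y, C.Y (ph p) = Y := ⟨_, rfl⟩
  obtain ⟨V1, hV1⟩ : ∃ V1, C.X v = V1 := ⟨_, rfl⟩
  obtain ⟨V2, hV2⟩ : ∃ V2, C.Y v = V2 := ⟨_, rfl⟩
  have mBv : ∀ f, f ∈ Bx v R ↔ (-R ≤ C.X f - V1 ∧ C.X f - V1 ≤ R) ∧ -R ≤ C.Y f - V2 ∧ C.Y f - V2 ≤ R := by
    intro f; rw [C.mem_Bx, hV1, hV2, abs_le, abs_le]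
  have mBz : ∀ f, f ∈ Bx z0 e ↔ (-e ≤ C.X f ∧ C.X f ≤ e) ∧ -e ≤ C.Y f ∧ C.Y f ≤ e := by
    intro f; rw [C.mem_Bx, hcX, hcY, sub_zero, sub_zero, abs_le, abs_le]
  have mBp : ∀ f, f ∈ Bx (ph p) (40 * t) ↔ (-(40 * t) ≤ C.X f - X ∧ C.X f - X ≤ 40 * t) ∧
      -(40 * t) ≤ C.Y f - Y ∧ C.Y f - Y ≤ 40 * t := by
    intro f; rw [C.mem_Bx, hX, hY, abs_le, abs_le]
  rw [hX, hV1] at n8
  rw [hY] at n9 n10 n12
  rw [hV1] at n6
  rw [hV2] at n7 n9 n13'
  -- a face of `Rv` in the box is in the ball or in a strip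
  have hreg : ∀ f ∈ Rv, f ∈ Bx v R → f ∈ Bx (ph p) (40 * t) ∨
      ∃ i, S7 t b k e X y (C.X f) (C.Y f) i := by
    intro f hf hfB
    by_contra hcon
    rw [not_or, not_exists] at hcon
    apply hO f hf
    rw [out7_iff, hX]
    exact ⟨hfB, hcon.1, hE f hf, hcon.2⟩
  have hking : ∀ f g, adjF f g → C.X g - C.X f ≤ 1 ∧ -1 ≤ C.X g - C.X f ∧ C.Y g - C.Y f ≤ 1 ∧
      -1 ≤ C.Y g - C.Y f := by
    intro f g h
    have := C.king h
    rw [abs_le, abs_le] at this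
    omega
  have hf0c : -e - 1 ≤ C.X f0 ∧ C.X f0 ≤ e + 1 ∧ -e - 1 ≤ C.Y f0 ∧ C.Y f0 ≤ e + 1 := by
    have h1 := hking _ _ hfg0
    have h2 := (mBz g0).1 hg0
    omega
  have hphA : ph p ∈ Bx (ph p) (40 * t) := by rw [mBp, hX, hY]; omega
  have hf0B : f0 ∈ Bx v R := by rw [mBv]; omega
  -- the right side
  have hright : ∃ i, b + 9 * t ≤ i ∧ i ≤ b + 11 * t ∧ C.pt i (-k) ∈ Rv := by
    by_contra hno
    push Not at hno
    have hsub := sub_of_closed (A := {f | f ∉ Bx v R ∨ f ∈ Bx (ph p) (40 * t) ∨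
      S7 t b k e X y (C.X f) (C.Y f) 0 ∨ (S7 t b k e X y (C.X f) (C.Y f) 1 ∧ -k < C.Y f)}) hRc hph
      (Or.inr (Or.inl hphA)) (by
        intro f hf hfA g hg hfg
        by_cases hgB : g ∈ Bx v R
        · rcases hreg g hg hgB with h | ⟨i, hi⟩
          · exact Or.inr (Or.inl h)
          · have hk := hking f g hfg
            rw [Set.mem_ofPred_eq, mBv f, mBp f] at hfA
            fin_cases i
            · exact Or.inr (Or.inr (Or.inl hi))
            · rcases lt_trichotomy (C.Y g) (-k) with h | h | h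
              · exfalso
                simp only [S7] at hi hfA
                omega
              · exfalso
                apply hno (C.X g) hi.1 hi.2.1
                rw [← h, C.pt_XY]
                exact hg
              · exact Or.inr (Or.inr (Or.inr ⟨hi, h⟩))
            all_goals
              exfalso
              simp only [S7] at hi hfA
              omega
        · exact Or.inl hgB)
    have h1 := hsub f0 hf0
    rw [Set.mem_ofPred_eq, mBv f0, mBp f0] at h1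
    simp only [S7] at h1
    omega
  have hleft : ∃ i, b - 11 * t ≤ i ∧ i ≤ b - 9 * t ∧ C.pt i (-k) ∈ Rv := by
    by_contra hno
    push Not at hno
    have hsub := sub_of_closed (A := {f | f ∉ Bx v R ∨ f ∈ Bx (ph p) (40 * t) ∨
      S7 t b k e X y (C.X f) (C.Y f) 0 ∨ S7 t b k e X y (C.X f) (C.Y f) 1 ∨
      S7 t b k e X y (C.X f) (C.Y f) 2 ∨ S7 t b k e X y (C.X f) (C.Y f) 3 ∨
      S7 t b k e X y (C.X f) (C.Y f) 4 ∨
      (S7 t b k e X y (C.X f) (C.Y f) 5 ∧ -k < C.Y f)}) hRc hph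
      (Or.inr (Or.inl hphA)) (by
        intro f hf hfA g hg hfg
        by_cases hgB : g ∈ Bx v R
        · rcases hreg g hg hgB with h | ⟨i, hi⟩
          · exact Or.inr (Or.inl h)
          · have hk := hking f g hfg
            rw [Set.mem_ofPred_eq, mBv f, mBp f] at hfA
            fin_cases i
            · exact Or.inr (Or.inr (Or.inl hi))
            · exact Or.inr (Or.inr (Or.inr (Or.inl hi)))
            · exact Or.inr (Or.inr (Or.inr (Or.inr (Or.inl hi))))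
            · exact Or.inr (Or.inr (Or.inr (Or.inr (Or.inr (Or.inl hi)))))
            · exact Or.inr (Or.inr (Or.inr (Or.inr (Or.inr (Or.inr (Or.inl hi))))))
            · rcases lt_trichotomy (C.Y g) (-k) with h | h | h
              · exfalso
                simp only [S7] at hi hfA
                omega
              · exfalso
                apply hno (C.X g) hi.1 hi.2.1
                rw [← h, C.pt_XY]
                exact hg
              · exact Or.inr (Or.inr (Or.inr (Or.inr (Or.inr (Or.inr (Or.inr ⟨hi, h⟩))))))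
            · exfalso
              simp only [S7] at hi hfA
              omega
        · exact Or.inl hgB)
    have h1 := hsub f0 hf0
    rw [Set.mem_ofPred_eq, mBv f0, mBp f0] at h1
    simp only [S7] at h1
    omega
  -- the middle of the mouth
  have hmid : ∀ i, b ≤ i → i ≤ b + 1 → C.pt i (-k) ∉ Rv := by
    intro i h1 h2 h3
    apply hO _ h3
    rw [out7_iff, hX, mBv, mBp, mBz, C.X_pt, C.Y_pt]
    refine ⟨by omega, by omega, by omega, ?_⟩
    intro l hl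
    fin_cases l <;> simp only [S7] at hl <;> omega
  obtain ⟨ir, hr1, hr2, hr3⟩ := hright
  obtain ⟨il, hl1, hl2, hl3⟩ := hleft
  obtain ⟨i2, a1, a2, a3, a4⟩ := find_up (fun i => C.pt i (-k) ∈ Rv) (a := b + 1) (c := ir)
    (by omega) hr3 (hmid _ (by omega) (by omega))
  obtain ⟨i1, b1, b2, b3, b4⟩ := find_up (fun i => C.pt (-i) (-k) ∈ Rv) (a := -b) (c := -il)
    (by omega) (by simpa using hl3) (by simpa using hmid b le_rfl (by omega))
  refine ⟨-i1 + 1, i2 - 1, by omega, by omega, by omega, by omega, ?_, ?_, ?_, f0, hf0,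
    ⟨g0, hg0, hfg0⟩, ?_⟩
  · rw [show -i1 + 1 - 1 = -i1 by ring]; exact b3
  · rw [show i2 - 1 + 1 = i2 by ring]; exact a3
  · intro i h1 h2
    rcases le_or_gt i b with h | h
    · have := b4 (-i) (by omega) (by omega)
      rwa [neg_neg] at this
    · exact a4 i (by omega) (by omega)
  · have hfE := hE f0 hf0
    rw [mBz] at hfE
    rcases hreg f0 hf0 hf0B with h | ⟨i, hi⟩
    · exfalso
      rw [mBp] at h
      omega
    · fin_cases i <;> simp only [S7] at hi <;> omega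

end Pool.Agent.H7.F5
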