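import Pool.Agent.H53.Per.Iface
import Pool.Agent.H98.Per.JT

set_option autoImplicit false

/-! MP_2e6055, module F5: LOOP (closed statement of `H53/Per/Iface.lean`). -/

namespace Pool.Agent.H7.F5

open Pool.Agent.H7.UC Pool.Agent.H74.Tri Pool.Agent.H98.Per Pool.Agent.H53.Per

theorem edge_pos {x y : Fc} (h : adjF x y) : ∃ (v : Vx) (k : Fin 3), fc v (k + 1) = x ∧
    fc v (k + 2) = y := by
  obtain ⟨e, ⟨h1, h2⟩ | ⟨h1, h2⟩⟩ := h
  · exact ⟨(e.1, e.2.1, false), e.2.2, h1, h2⟩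
  · exact ⟨nb (e.1, e.2.1, false) e.2.2, e.2.2, by rw [fc_nb1]; exact h2,
      by rw [fc_nb2]; exact h1⟩

theorem fc_ne_nb (v : Vx) (k : Fin 3) : fc v k ≠ fc (nb v k) k := by
  obtain ⟨i, j, b⟩ := v
  fin_cases k <;> cases b <;> simp [nb, fc]

theorem adj_fc {v : Vx} {k l : Fin 3} (h : k ≠ l) : adjF (fc v k) (fc v l) := adjF_fc _ h

/-- the run of the row `j` from `i1 - 1` to `i2 + 1` as a walk -/
theorem run_walk (C : Ch) (a j : ℤ) (K : ℕ) :
    IsWalk (fun k => C.pt (a + (k : ℤ)) j) K := by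
  constructor
  intro i _
  apply C.unit_x
  · left
    rw [Ch.X_pt, Ch.X_pt]
    push_cast
    ring
  · rw [Ch.Y_pt, Ch.Y_pt]

theorem run_mW (C : Ch) (a i j : ℤ) (K : ℕ) (h1 : a ≤ i) (h2 : i + 1 ≤ a + K) :
    mW (fun k => C.pt (a + (k : ℤ)) j) K (C.pt i j) (C.pt (i + 1) j) = 1 := by
  unfold mW wsum
  rw [Finset.sum_eq_single (i - a).toNat]
  · unfold mst
    rw [if_pos]
    left
    have e : a + (((i - a).toNat : ℕ) : ℤ) = i := by omega
    constructor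
    · show C.pt (a + (((i - a).toNat : ℕ) : ℤ)) j = _
      rw [e]
    · show C.pt (a + (((i - a).toNat + 1 : ℕ) : ℤ)) j = _
      push_cast
      rw [← add_assoc, Int.toNat_of_nonneg (by omega)]
      congr 1
      ring
  · intro k _ hk
    unfold mst
    rw [if_neg]
    rintro (⟨h, _⟩ | ⟨h, h'⟩)
    · have := congrArg C.X h
      rw [Ch.X_pt, Ch.X_pt] at this
      omega
    · have h3 := congrArg C.X h
      have h4 := congrArg C.X h'
      rw [Ch.X_pt, Ch.X_pt] at h3 h4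
      push_cast at h4
      omega
  · intro h
    exfalso
    rw [Finset.mem_range] at h
    omega

theorem loop : LOOP := by
  intro C U Rv i1 i2 i j z0 hU hRU hRc hi1 hi2 hl hr hrun hoff htop hbot f g hf hfg
  by_contra hg
  -- the walk in the revealed faces
  obtain ⟨W1, L1, hW1, hW10, hW1L, hW1v⟩ := walk_of_jn (hRc _ hr _ hl) hr
  set K : ℕ := (i2 - i1 + 2).toNat with hK
  have hKe : (K : ℤ) = i2 - i1 + 2 := by omega
  set V : ℕ → Fc := fun k => C.pt (i1 - 1 + (k : ℤ)) j with hV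
  have hVw : IsWalk V K := run_walk C (i1 - 1) j K
  have hc : W1 L1 = V 0 := by
    rw [hW1L, hV]
    simp
  have hVK : V K = C.pt (i2 + 1) j := by
    rw [hV]
    show C.pt (i1 - 1 + (K : ℤ)) j = _
    congr 1
    omega
  set W : ℕ → Fc := cat W1 L1 V with hWdef
  have hW : IsCl W (L1 + K) := by
    refine ⟨cat_walk hW1 hVw hc, ?_⟩
    rw [hWdef, cat_right hc, cat_left (Nat.zero_le _), hVK, hW10]
  -- the faces of the walk
  have hvis : ∀ a, vis W (L1 + K) a → a ∈ Rv ∨ (C.Y a = j ∧ i1 ≤ C.X a ∧ C.X a ≤ i2) := by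
    intro a ha
    rcases cat_vis hc ha with h | ⟨k, hk, rfl⟩
    · exact Or.inl (hW1v a h)
    · by_cases h0 : k = 0
      · left
        rw [h0, ← hc, hW1L]
        exact hl
      · by_cases h1 : k = K
        · left
          rw [h1, hVK]
          exact hr
        · right
          rw [hV]
          show C.Y (C.pt (i1 - 1 + (k : ℤ)) j) = j ∧ i1 ≤ C.X (C.pt (i1 - 1 + (k : ℤ)) j) ∧
            C.X (C.pt (i1 - 1 + (k : ℤ)) j) ≤ i2
          rw [Ch.X_pt, Ch.Y_pt]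
          refine ⟨rfl, ?_, ?_⟩ <;> omega
  have hWU : ∀ k ≤ L1 + K, W k ∈ U := by
    intro k hk
    rcases hvis (W k) ⟨k, hk, rfl⟩ with h | ⟨h1, h2, h3⟩
    · exact hRU _ h
    · rw [← C.pt_XY (W k), h1]
      exact hrun _ h2 h3
  -- the step from `pt i j` to `pt (i+1) j` is used once
  have hx : ∀ k, i1 ≤ k → k ≤ i2 → ¬ vis W1 L1 (C.pt k j) := by
    intro k h1 h2 h
    exact hoff k h1 h2 (hW1v _ h)
  have hmW : mW W (L1 + K) (C.pt i j) (C.pt (i + 1) j) = 1 := by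
    unfold mW
    rw [hWdef, cat_wsum _ _ hc]
    have e1 : wsum (mst (C.pt i j) (C.pt (i + 1) j)) W1 L1 = 0 := mW_off _ (hx i hi1 (by omega))
    have e2 : wsum (mst (C.pt i j) (C.pt (i + 1) j)) V K = 1 :=
      run_mW C (i1 - 1) i j K (by omega) (by omega)
    rw [e1, e2, zero_add]
  -- the two common neighbours
  have hxy : adjF (C.pt i j) (C.pt (i + 1) j) := by
    apply C.unit_x
    · left
      rw [Ch.X_pt, Ch.X_pt]
    · rw [Ch.Y_pt, Ch.Y_pt]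
  obtain ⟨v, k, hv1, hv2⟩ := edge_pos hxy
  have k01 : ∀ k : Fin 3, k ≠ k + 1 := by decide
  have k02 : ∀ k : Fin 3, k ≠ k + 2 := by decide
  have a1 : adjF (fc v k) (C.pt i j) := by rw [← hv1]; exact adj_fc (k01 k)
  have a2 : adjF (fc v k) (C.pt (i + 1) j) := by rw [← hv2]; exact adj_fc (k02 k)
  have b1 : adjF (fc (nb v k) k) (C.pt i j) := by
    rw [← hv1, ← fc_nb2]; exact adj_fc (k02 k)
  have b2 : adjF (fc (nb v k) k) (C.pt (i + 1) j) := by
    rw [← hv2, ← fc_nb1]; exact adj_fc (k01 k)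
  have hcase : ∀ a, adjF a (C.pt i j) → adjF a (C.pt (i + 1) j) →
      (C.Y a = j + 1 ∧ 2 * C.X a = 2 * i + 1 - C.s) ∨ (C.Y a = j - 1 ∧ 2 * C.X a = 2 * i + 1 + C.s) := by
    intro a h1 h2
    rw [C.adj, Ch.X_pt, Ch.Y_pt] at h1 h2
    unfold adC at h1 h2
    rcases C.hs with h | h <;> rw [h] at h1 h2 ⊢ <;> omega
  have hX : ∀ a, adjF a (C.pt i j) → adjF a (C.pt (i + 1) j) → C.X a = i ∨ C.X a = i + 1 := by
    intro a h1 h2
    rcases hcase a h1 h2 with ⟨_, h⟩ | ⟨_, h⟩ <;> rcases C.hs with h' | h' <;> rw [h'] at h <;> omega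
  have key : ∀ t b, adjF t (C.pt i j) → adjF t (C.pt (i + 1) j) → C.Y t = j + 1 →
      adjF b (C.pt i j) → adjF b (C.pt (i + 1) j) → C.Y b = j - 1 →
      (NW W (L1 + K) t + NW W (L1 + K) b = 1 ∨ True) → ¬ vis W (L1 + K) t ∧ ¬ vis W (L1 + K) b ∧
        NW W (L1 + K) t = 0 ∧ NW W (L1 + K) b = 0 := by
    intro t b ht1 ht2 ht3 hb1 hb2 hb3 _
    obtain ⟨htR, g', hg'U, hg'⟩ := htop t ht3 (hX t ht1 ht2)
    obtain ⟨hbR, hbz⟩ := hbot b hb3 (hX b hb1 hb2)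
    have hSvis : ∀ a ∈ {a | a ∉ Rv ∧ ¬ (C.Y a = j ∧ i1 ≤ C.X a ∧ C.X a ≤ i2)},
        ¬ vis W (L1 + K) a := by
      rintro a ⟨h1, h2⟩ h3
      rcases hvis a h3 with h | h
      · exact h1 h
      · exact h2 h
    have htS : t ∈ {a | a ∉ Rv ∧ ¬ (C.Y a = j ∧ i1 ≤ C.X a ∧ C.X a ≤ i2)} :=
      ⟨htR, fun h => by omega⟩
    have htv : ¬ vis W (L1 + K) t := hSvis t htS
    have hbS : b ∈ {a | a ∉ Rv ∧ ¬ (C.Y a = j ∧ i1 ≤ C.X a ∧ C.X a ≤ i2)} :=
      ⟨hbR, fun h => by omega⟩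
    have hbv : ¬ vis W (L1 + K) b := hSvis b hbS
    refine ⟨htv, hbv, ?_, ?_⟩
    · rw [NW_jn hW hSvis htv hg']
      exact NW_off hU hW hWU hg'U
    · rw [NW_jn hW hSvis hbv hbz]
      have hz0S := Jn.mem hbz hbS
      have hz0v : ¬ vis W (L1 + K) z0 := hSvis z0 hz0S
      have hf' : Jn {a | a ∉ Rv ∧ ¬ (C.Y a = j ∧ i1 ≤ C.X a ∧ C.X a ≤ i2)} z0 f := hf
      rw [NW_jn hW hSvis hz0v hf']
      have hfv : ¬ vis W (L1 + K) f := hSvis f (Jn.mem hf' hz0S)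
      have hgv : ¬ vis W (L1 + K) g := by
        rintro ⟨n, hn, rfl⟩
        exact hg (hWU n hn)
      rw [NW_adj hW hfg hfv hgv]
      exact NW_off hU hW hWU hg
  have hcross : ¬ vis W (L1 + K) (fc v k) → ¬ vis W (L1 + K) (fc (nb v k) k) →
      NW W (L1 + K) (fc v k) + NW W (L1 + K) (fc (nb v k) k) = 1 := by
    intro h1 h2
    rw [NW_cross hW v k h1 h2, hv1, hv2, hmW]
  rcases hcase _ a1 a2 with ⟨h1, h1'⟩ | ⟨h1, h1'⟩ <;> rcases hcase _ b1 b2 with ⟨h2, h2'⟩ | ⟨h2, h2'⟩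
  · exact fc_ne_nb v k (C.ext (by omega) (by omega))
  · obtain ⟨q1, q2, q3, q4⟩ := key _ _ a1 a2 h1 b1 b2 h2 (Or.inr trivial)
    have := hcross q1 q2
    rw [q3, q4] at this
    exact absurd this (by decide)
  · obtain ⟨q1, q2, q3, q4⟩ := key _ _ b1 b2 h2 a1 a2 h1 (Or.inr trivial)
    have := hcross q2 q1
    rw [q3, q4] at this
    exact absurd this (by decide)
  · exact fc_ne_nb v k (C.ext (by omega) (by omega))

end Pool.Agent.H7.F5
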