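import Pool.Agent.H98.Per.T3b
import Pool.Agent.H50.Per.Revc

set_option autoImplicit false

/-! MP_2e6055, module F5: CONF1, CONF2 (closed statements of `H53/Per/Iface.lean`). -/

namespace Pool.Agent.H7.F5

open Pool.Agent.H7.UC Pool.Agent.H74.Tri Pool.Agent.H75.Lv Pool.Agent.H53.Per Pool.Agent.H98.Per
open Pool.Agent.H98.Tri

section

variable {U : Finset Fc} {ω : Fc → Bool} {p : Pos} {c : Bool} {β α E : Finset Fc} {f1 a1 g1 : Fc}

/-- the colouring in which the end set has the colour of `β` -/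
def omE (ω : Fc → Bool) (c : Bool) (E : Finset Fc) : Fc → Bool := fun f => if f ∈ E then c else ω f

theorem omE_off {f : Fc} (h : f ∉ E) : omE ω c E f = ω f := if_neg h
theorem omE_on {f : Fc} (h : f ∈ E) : omE ω c E f = c := if_pos h

theorem nK {f : Fc} : f ∈ U \ (β ∪ α ∪ E) ↔ f ∈ U ∧ f ∉ β ∧ f ∉ α ∧ f ∉ E := by
  rw [Finset.mem_sdiff, Finset.mem_union, Finset.mem_union]
  tauto

/-- the component of the face ahead is a state for `omE` -/
theorem cor_state (h : Cor U ω p c β α E f1 a1 g1) :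
    St (comp (U \ (β ∪ α ∪ E)) (ph p)) (omE ω c E) ∧
    IsTip (comp (U \ (β ∪ α ∪ E)) (ph p)) (omE ω c E) p ∧
    f1 ∈ comp (U \ (β ∪ α ∪ E)) (ph p) := by
  classical
  have oU : ∀ f, f ∉ U → omE ω c E f = ω f := fun f hf => omE_off fun h' => hf (h.eU h')
  have hU : St U (omE ω c E) := st_congr h.st oU
  have hpU := nK.1 h.pU
  obtain ⟨b0, hb0, x0, hx0, hbx, hxc⟩ := h.bout
  obtain ⟨a0, ha0, y0, hy0, hay, hyc⟩ := h.aout
  obtain ⟨b1, hb1, e1, he1, hbe⟩ := h.bend
  -- first: `β ∪ E`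
  have hK1 : ∀ f ∈ β ∪ E, Jn (↑(β ∪ E) : Set Fc) f b0 := by
    have hβs : (↑β : Set Fc) ⊆ ↑(β ∪ E) := by
      exact_mod_cast Finset.subset_union_left
    have hEs : (↑E : Set Fc) ⊆ ↑(β ∪ E) := by
      exact_mod_cast Finset.subset_union_right
    intro f hf
    rw [Finset.mem_union] at hf
    rcases hf with hf | hf
    · exact (h.conb f hf b0 hb0).mono hβs
    · refine ((h.cone f hf e1 he1).mono hEs).trans ?_
      exact (Jn.single (hβs (by exact_mod_cast hb1)) (adjF_symm hbe)).trans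
        ((h.conb b1 hb1 b0 hb0).mono hβs)
  have hpK1 : ph p ∉ β ∪ E := by
    rw [Finset.mem_union]; rintro (h' | h')
    · exact hpU.2.1 h'
    · exact hpU.2.2.2 h'
  set Z1 := comp (U \ (β ∪ E)) (ph p) with hZ1
  have hSt1 : St Z1 (omE ω c E) := by
    refine peelK U _ hU (β ∪ E) c (Finset.union_subset h.bU h.eU) ?_ ?_ (ph p) hpU.1 hpK1
    · intro f hf
      rw [Finset.mem_union] at hf
      by_cases hE : f ∈ E
      · exact omE_on hE
      · rw [omE_off hE]
        exact h.colb f (hf.resolve_right hE)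
    · intro f hf
      exact ⟨b0, hK1 f hf, x0, hx0, hbx, by rw [oU x0 hx0]; exact hxc⟩
  have hpZ1 : ph p ∈ Z1 := mem_comp_self (Finset.mem_sdiff.2 ⟨hpU.1, hpK1⟩)
  have hsub1 : ∀ {f}, f ∈ U \ (β ∪ α ∪ E) → f ∈ U \ (β ∪ E) := by
    intro f hf
    rw [nK] at hf
    rw [Finset.mem_sdiff, Finset.mem_union]
    exact ⟨hf.1, fun h' => h'.elim hf.2.1 hf.2.2.2⟩
  have hZ1U : ∀ f ∈ Z1, f ∈ U ∧ f ∉ β ∧ f ∉ E := by
    intro f hf
    have := Finset.mem_sdiff.1 (comp_sub _ _ hf)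
    rw [Finset.mem_union] at this
    exact ⟨this.1, fun h' => this.2 (Or.inl h'), fun h' => this.2 (Or.inr h')⟩
  have hαU1 : ∀ f ∈ α, f ∈ U \ (β ∪ E) := by
    intro f hf
    rw [Finset.mem_sdiff, Finset.mem_union]
    exact ⟨h.aU hf, fun h' => h'.elim (fun h2 => Finset.disjoint_left.1 h.ba h2 hf)
      (fun h2 => Finset.disjoint_left.1 h.ae hf h2)⟩
  have hf1Z1 : f1 ∈ Z1 := by
    have h1 : Jn (↑(U \ (β ∪ E)) : Set Fc) (ph p) f1 :=
      h.hf.mono (fun f hf => by exact_mod_cast hsub1 (by exact_mod_cast hf))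
    rw [hZ1, mem_comp]
    refine ⟨?_, h1⟩
    have h2 := Jn.mem h.hf (by exact_mod_cast h.pU)
    exact hsub1 (by exact_mod_cast h2)
  have hαZ1 : α ⊆ Z1 := by
    intro f hf
    have ha : a1 ∈ Z1 := comp_adj hf1Z1 (hαU1 a1 h.ha) h.tri.1
    have hj := h.cona a1 h.ha f hf
    have key : ∀ g, Jn (↑α : Set Fc) a1 g → g ∈ Z1 := by
      intro g hg
      induction hg with
      | refl => exact ha
      | tail _ h2 ih => exact comp_adj ih (hαU1 _ (by exact_mod_cast h2.1)) h2.2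
    exact key f hj
  set Z := comp (Z1 \ α) (ph p) with hZ
  have hSt : St Z (omE ω c E) := by
    refine peelK Z1 _ hSt1 α (!c) hαZ1 ?_ ?_ (ph p) hpZ1 hpU.2.2.1
    · intro f hf
      rw [omE_off (fun h' => Finset.disjoint_left.1 h.ae hf h')]
      exact h.cola f hf
    · intro f hf
      exact ⟨a0, h.cona f hf a0 ha0, y0, fun h' => hy0 (hZ1U _ h').1, hay,
        by rw [oU y0 hy0]; exact hyc⟩
  have hZe : Z = comp (U \ (β ∪ α ∪ E)) (ph p) := by
    ext f
    constructor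
    · intro hf
      have h1 := (mem_comp.1 hf).2
      have hin : ∀ g, g ∈ Z1 \ α → g ∈ U \ (β ∪ α ∪ E) := by
        intro g hg
        rw [Finset.mem_sdiff] at hg
        rw [nK]
        obtain ⟨q1, q2, q3⟩ := hZ1U g hg.1
        exact ⟨q1, q2, hg.2, q3⟩
      rw [mem_comp]
      exact ⟨hin f (mem_comp.1 hf).1, h1.mono (fun g hg => by
        exact_mod_cast hin g (by exact_mod_cast hg))⟩
    · intro hf
      have h1 := (mem_comp.1 hf).2
      have key : ∀ g, Jn (↑(U \ (β ∪ α ∪ E)) : Set Fc) (ph p) g → g ∈ Z := by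
        intro g hg
        induction hg with
        | refl => exact mem_comp_self (Finset.mem_sdiff.2 ⟨hpZ1, hpU.2.2.1⟩)
        | @tail b d _ h2 ih =>
          have hd : d ∈ U \ (β ∪ α ∪ E) := by exact_mod_cast h2.1
          have hb1 : b ∈ Z1 := (Finset.mem_sdiff.1 (comp_sub _ _ ih)).1
          have hd1 : d ∈ Z1 := comp_adj hb1 (hsub1 hd) h2.2
          exact comp_adj ih (Finset.mem_sdiff.2 ⟨hd1, (nK.1 hd).2.2.1⟩) h2.2
      exact key f h1
  rw [← hZe]
  have hpZ : ph p ∈ Z := mem_comp_self (Finset.mem_sdiff.2 ⟨hpZ1, hpU.2.2.1⟩)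
  have hZU : ∀ f ∈ Z, f ∈ U := fun f hf => (hZ1U f (Finset.mem_sdiff.1 (comp_sub _ _ hf)).1).1
  refine ⟨hSt, ⟨hpZ, fun h' => h.tip.2.1 (hZU _ h'), fun h' => h.tip.2.2.1 (hZU _ h'), ?_, ?_⟩, ?_⟩
  · rw [oU _ h.tip.2.1]; exact h.tip.2.2.2.1
  · rw [oU _ h.tip.2.2.1]; exact h.tip.2.2.2.2
  · rw [hZe, mem_comp]
    exact ⟨by exact_mod_cast Jn.mem h.hf (by exact_mod_cast h.pU), h.hf⟩

theorem mem_Z {f : Fc} (h : f ∈ comp (U \ (β ∪ α ∪ E)) (ph p)) :
    f ∈ U ∧ f ∉ β ∧ f ∉ α ∧ f ∉ E := nK.1 (comp_sub _ _ h)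

/-- a vertex `(f2, a2, g2)` seen from `Z` is a change vertex of `Z`, different from the tip vertex -/
theorem cor_chg (h : Cor U ω p c β α E f1 a1 g1) {f2 a2 g2 : Fc} (ha : a2 ∈ α) (hg : g2 ∈ E)
    (ht : Tri3 f2 a2 g2) (hf : f2 ∈ comp (U \ (β ∪ α ∪ E)) (ph p)) :
    ∃ q : Pos, ph q = f2 ∧ ((pl q = a2 ∧ pr q = g2) ∨ (pl q = g2 ∧ pr q = a2)) ∧
      chg (comp (U \ (β ∪ α ∪ E)) (ph p)) (omE ω c E) q.1 ∧ p.1 ≠ q.1 := by
  obtain ⟨q, hq, hq'⟩ := tri3 ht
  refine ⟨q, hq, hq', ?_, ?_⟩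
  · have ha' : a2 ∉ comp (U \ (β ∪ α ∪ E)) (ph p) := fun h' => (mem_Z h').2.2.1 ha
    have hg' : g2 ∉ comp (U \ (β ∪ α ∪ E)) (ph p) := fun h' => (mem_Z h').2.2.2 hg
    have ca : omE ω c E a2 = !c := by
      rw [omE_off (fun h' => Finset.disjoint_left.1 h.ae ha h')]
      exact h.cola a2 ha
    have cg : omE ω c E g2 = c := omE_on hg
    refine ⟨q.2, by show ph q ∈ _; rw [hq]; exact hf, ?_, ?_, ?_⟩
    · show pl q ∉ _
      rcases hq' with ⟨e1, _⟩ | ⟨e1, _⟩ <;> rw [e1] <;> assumption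
    · show pr q ∉ _
      rcases hq' with ⟨_, e2⟩ | ⟨_, e2⟩ <;> rw [e2] <;> assumption
    · show omE ω c E (pl q) ≠ omE ω c E (pr q)
      rcases hq' with ⟨e1, e2⟩ | ⟨e1, e2⟩ <;> rw [e1, e2, ca, cg] <;> cases c <;> decide
  · intro he
    have hall : ∀ k, fc q.1 k ∈ U := by
      intro k
      have h0 : fc q.1 q.2 ∈ U := by
        have : ph q ∈ U := by rw [hq]; exact (mem_Z hf).1
        exact this
      have h1 : fc q.1 (q.2 + 1) ∈ U := by
        have : pl q ∈ U := by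
          rcases hq' with ⟨e1, _⟩ | ⟨e1, _⟩ <;> rw [e1]
          · exact h.aU ha
          · exact h.eU hg
        exact this
      have h2 : fc q.1 (q.2 + 2) ∈ U := by
        have : pr q ∈ U := by
          rcases hq' with ⟨_, e2⟩ | ⟨_, e2⟩ <;> rw [e2]
          · exact h.eU hg
          · exact h.aU ha
        exact this
      by_cases e0 : q.2 = k
      · rw [← e0]; exact h0
      · rcases fin3_a _ _ e0 with e | e <;> rw [e] <;> assumption
    apply h.tip.2.1
    show fc p.1 (p.2 + 1) ∈ U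
    rw [he]
    exact hall _

end

theorem conf2 : CONF2 := by
  intro U ω p c β α E f1 a1 g1 h f2 a2 g2 ha2 hg2 ht2 _ hne hf2
  obtain ⟨hSt, htip, hf1⟩ := cor_state h
  obtain ⟨q, hq, hq', hc1, hn1⟩ := cor_chg h h.ha h.hg h.tri hf1
  obtain ⟨q2, hq2, hq2', hc2, hn2⟩ := cor_chg h ha2 hg2 ht2 hf2
  rcases hSt.two _ _ _ (tip_chg htip) hc1 hc2 with h1 | h1 | h1
  · exact hn1 h1
  · exact hn2 h1
  · -- the faces at the common vertex
    have ha' : a1 ∉ comp (U \ (β ∪ α ∪ E)) (ph p) := fun h' => (mem_Z h').2.2.1 h.ha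
    have hg' : g1 ∉ comp (U \ (β ∪ α ∪ E)) (ph p) := fun h' => (mem_Z h').2.2.2 h.hg
    have e2 : fc q.1 q2.2 = f2 := by rw [h1]; exact hq2
    by_cases e : q.2 = q2.2
    · apply hne
      rw [← e2, ← e]
      exact hq
    · rcases fin3_a _ _ e with e' | e'
      · have h3 : pl q = f2 := by rw [← e2, e']; rfl
        rw [← h3] at hf2
        rcases hq' with ⟨h4, _⟩ | ⟨h4, _⟩ <;> rw [h4] at hf2 <;> contradiction
      · have h3 : pr q = f2 := by rw [← e2, e']; rfl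
        rw [← h3] at hf2
        rcases hq' with ⟨_, h4⟩ | ⟨_, h4⟩ <;> rw [h4] at hf2 <;> contradiction

theorem conf1 : CONF1 := by
  classical
  intro U ω p c β α E f1 a1 g1 h
  obtain ⟨hSt, htip, hf1⟩ := cor_state h
  obtain ⟨q, hq, hq', hc1, hn1⟩ := cor_chg h h.ha h.hg h.tri hf1
  have ha' : a1 ∉ comp (U \ (β ∪ α ∪ E)) (ph p) := fun h' => (mem_Z h').2.2.1 h.ha
  have hg' : g1 ∉ comp (U \ (β ∪ α ∪ E)) (ph p) := fun h' => (mem_Z h').2.2.2 h.hg
  set Z := comp (U \ (β ∪ α ∪ E)) (ph p) with hZ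
  set ω' := omE ω c E with hω'
  obtain ⟨n, hn1', hin, hex⟩ := int1 Z ω' p htip
  have hqe : q.1 = nb (orb ω' p (n + 1)).1 (orb ω' p (n + 1)).2 := by
    rcases hSt.two _ _ _ (tip_chg htip) hc1 (exit_chg hex) with h1 | h1 | h1
    · exact absurd h1 hn1
    · exact absurd h1 (tip_ne_exit htip hex)
    · exact h1
  -- `g1` is a face of the exit edge
  have hg1 : g1 = pl (orb ω' p (n + 1)) ∨ g1 = pr (orb ω' p (n + 1)) := by
    obtain ⟨x1, x2, x3⟩ := exit_faces (p := orb ω' p (n + 1))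
    set e := orb ω' p (n + 1) with he
    rw [← hqe] at x1 x2 x3
    have hk : q.2 = e.2 := by
      by_contra hk
      rcases fin3_a _ _ (Ne.symm hk) with h1 | h1
      · have h2 : ph q = pr e := by rw [← x2, ← h1]; rfl
        apply hex.2.2.1
        rw [← h2, hq]
        exact hf1
      · have h2 : ph q = pl e := by rw [← x3, ← h1]; rfl
        apply hex.2.1
        rw [← h2, hq]
        exact hf1
    have h2 : pr e = pl q := by rw [← x2, ← hk]; rfl
    have h3 : pl e = pr q := by rw [← x3, ← hk]; rfl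
    rw [h2, h3]
    rcases hq' with ⟨_, h4⟩ | ⟨h4, _⟩
    · exact Or.inl h4.symm
    · exact Or.inr h4.symm
  -- the first index at which a face of `E` is touched
  have hexj : ∃ j, pl (orb ω' p j) ∈ E ∨ pr (orb ω' p j) ∈ E := by
    refine ⟨n + 1, ?_⟩
    rcases hg1 with h1 | h1
    · left; rw [← h1]; exact h.hg
    · right; rw [← h1]; exact h.hg
  have hj := Nat.find_spec hexj
  have hjmin : ∀ i, i < Nat.find hexj → pl (orb ω' p i) ∉ E ∧ pr (orb ω' p i) ∉ E := by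
    intro i hi
    have := Nat.find_min hexj hi
    exact not_or.1 this
  have hjn : Nat.find hexj ≤ n + 1 := by
    apply Nat.find_min' hexj
    rcases hg1 with h1 | h1
    · left; rw [← h1]; exact h.hg
    · right; rw [← h1]; exact h.hg
  have hj0 : Nat.find hexj ≠ 0 := by
    intro h0
    rw [h0] at hj
    rcases hj with h1 | h1
    · exact h.tip.2.1 (h.eU h1)
    · exact h.tip.2.2.1 (h.eU h1)
  obtain ⟨i, hi⟩ : ∃ i, Nat.find hexj = i + 1 := ⟨Nat.find hexj - 1, by omega⟩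
  rw [hi] at hj hjmin hjn
  -- the new face is in `E`
  have hphE : ph (orb ω' p i) ∈ E := by
    have h1 := hjmin i (by omega)
    rcases hj with h2 | h2
    · rcases stp_faces ω' (orb ω' p i) (f := pl (orb ω' p (i + 1)))
        (Or.inl (by rw [orb_succ])) with h3 | h3 | h3
      · rw [← h3]; exact h2
      · rw [h3] at h2; exact absurd h2 h1.1
      · rw [h3] at h2; exact absurd h2 h1.2
    · rcases stp_faces ω' (orb ω' p i) (f := pr (orb ω' p (i + 1)))
        (Or.inr (by rw [orb_succ])) with h3 | h3 | h3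
      · rw [← h3]; exact h2
      · rw [h3] at h2; exact absurd h2 h1.1
      · rw [h3] at h2; exact absurd h2 h1.2
  have hphn : ∀ k, k < i → ph (orb ω' p k) ∉ E := by
    intro k hk hE
    have h1 := hjmin (k + 1) (by omega)
    rw [orb_succ] at h1
    rcases Pool.Agent.H53.Per.ph_next ω' (orb ω' p k) with h2 | h2
    · exact h1.1 (h2 ▸ hE)
    · exact h1.2 (h2 ▸ hE)
  -- the two interfaces agree up to `i`
  have hagree : ∀ k, k ≤ i → orb ω p k = orb ω' p k := by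
    intro k
    induction k with
    | zero => intro _; rfl
    | succ k ih =>
      intro hk
      rw [orb_succ, orb_succ, ih (by omega)]
      have h1 : ω (ph (orb ω' p k)) = ω' (ph (orb ω' p k)) :=
        (omE_off (hphn k (by omega))).symm
      unfold stp
      rw [h1]
  have hinZ : ∀ k, 1 ≤ k → k ≤ i → pl (orb ω p k) ∈ Z ∨ pr (orb ω p k) ∈ Z := by
    intro k hk hki
    rw [hagree k hki, ← inE_pe]
    exact hin k hk (by omega)
  have hZU : ∀ f ∈ Z, f ∈ U := fun f hf => (mem_Z hf).1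
  have hi0 : 1 ≤ i := by
    rcases Nat.eq_zero_or_pos i with h0 | h0
    · rw [h0] at hphE
      exact absurd hphE (nK.1 h.pU).2.2.2
    · exact h0
  refine ⟨i, ⟨⟨ph (orb ω p i), ?_, ?_⟩, ?_⟩, ?_, ?_⟩
  · rw [hagree i le_rfl]; exact hphE
  · refine ⟨?_, rfl, ?_, ?_⟩
    · intro k hk hki
      rw [inE_pe]
      rcases hinZ k hk hki with h1 | h1
      · exact Or.inl (hZU _ h1)
      · exact Or.inr (hZU _ h1)
    · rw [hagree i le_rfl]; exact h.eU hphE
    · rintro ⟨k, hk, hk'⟩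
      have h1 := hjmin k (by omega)
      rw [hagree k hk, hagree i le_rfl] at hk'
      rcases hk' with h2 | h2
      · exact h1.1 (h2 ▸ hphE)
      · exact h1.2 (h2 ▸ hphE)
  · rintro k hk f hf ⟨_, h2, _, _⟩
    rw [hagree k hk.le] at h2
    exact hphn k hk (h2 ▸ hf)
  · rintro f hf ⟨k, hk, hk'⟩
    rcases Nat.eq_zero_or_pos k with h0 | h0
    · exfalso
      rw [h0, orb_zero] at hk'
      rcases hk' with h1 | h1
      · exact h.tip.2.1 (h1 ▸ hf)
      · exact h.tip.2.2.1 (h1 ▸ hf)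
    · by_cases hb : f ∈ β
      · exact Or.inr (Or.inl hb)
      by_cases ha : f ∈ α
      · exact Or.inr (Or.inr ha)
      left
      have hfE : f ∉ E := by
        have h1 := hjmin k (by omega)
        rw [← hagree k hk] at h1
        rcases hk' with h2 | h2 <;> rw [h2]
        · exact h1.1
        · exact h1.2
      have hfK : f ∈ U \ (β ∪ α ∪ E) := nK.2 ⟨hf, hb, ha, hfE⟩
      rcases hinZ k h0 hk with h1 | h1
      · rcases hk' with h2 | h2
        · rw [h2]; exact h1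
        · apply comp_adj h1 hfK
          rw [h2]; exact adj_lr _
      · rcases hk' with h2 | h2
        · apply comp_adj h1 hfK
          rw [h2]; exact adjF_symm (adj_lr _)
        · rw [h2]; exact h1
  · rcases hinZ i hi0 le_rfl with h1 | h1
    · exact ⟨_, h1, ⟨i, le_rfl, Or.inl rfl⟩, adjF_symm (adj_hl _)⟩
    · exact ⟨_, h1, ⟨i, le_rfl, Or.inr rfl⟩, adjF_symm (adj_hr _)⟩

end Pool.Agent.H7.F5
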